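import Pool.Agent.Lib.SymExt.UD

/-! Models of ZF whose natural numbers are standard: internal notions seen from outside. -/

namespace Pool.Agent.Lib.SymExt

open Pool.Agent.Lib.PermModel

variable {M : Type 1}

/-- `S` is a model of ZF without atoms whose natural numbers are the numerals `num n`. -/
structure Std (S : Str M) (num : ℕ → M) : Prop where
  zf : S.IsZFA
  set : ∀ x, ¬ S.atm x
  mem_num : ∀ n z, S.mem z (num n) ↔ ∃ m < n, z = num m
  isNat : ∀ x, S.IsNat x ↔ ∃ n, x = num n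

/-- The extension of an element of the model. -/
def ex (S : Str M) (x : M) : Set M := {z | S.mem z x}

/-- A binary tree of infinite subsets of `X`, each definable up to finite changes from finitely
many parameters. -/
def Tree (S : Str M) (X : M) : Prop :=
  ∃ (v : ℕ → M) (φ : ℕ → (ℕ → Bool) → Fm) (W : ℕ → (ℕ → Bool) → M), (Set.range v).Finite ∧
    (∀ n k, ex S (W n k) ⊆ ex S X ∧ (ex S (W n k)).Infinite) ∧
    (∀ n k, S.Sat (φ n k) (cons (W n k) v)) ∧
    (∀ n k U, S.Sat (φ n k) (cons U v) → (ex S U \ ex S (W n k)).Finite) ∧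
    (∀ n k k', (∀ i ≤ n, k i = k' i) → (ex S (W n k) \ ex S (W n k')).Finite) ∧
    (∀ n k, (ex S (W (n + 1) k) \ ex S (W n k)).Finite) ∧
    ∀ n k k', (∃ i ≤ n, k i ≠ k' i) → (ex S (W (n + 1) k) ∩ ex S (W n k')).Finite

/-- `x` is the numeral `n`. -/
def Num (S : Str M) : ℕ → M → Prop
  | 0, x => ∀ z, ¬ S.mem z x
  | n + 1, x => ∃ y, Num S n y ∧ ∀ z, S.mem z x ↔ (S.mem z y ∨ z = y)

/-- The number coding a bit. -/
def bit (b : Bool) : ℕ := if b then 1 else 0

/-- `s` is the string of the first `n` bits of `k`. -/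
def Code (S : Str M) : ℕ → (ℕ → Bool) → M → Prop
  | 0, _, s => ∀ z, ¬ S.mem z s
  | n + 1, k, s => ∃ t, Code S n k t ∧ ∃ a, Num S n a ∧ ∃ b, Num S (bit (k n)) b ∧
      ∀ p, S.mem p s ↔ (S.mem p t ∨ S.IsPair p a b)

instance ud_num (n i : ℕ) : UD fun _ S v => Num S n (v i) := by
  induction n generalizing i with
  | zero => unfold Num; infer_instance
  | succ n ih => unfold Num; infer_instance

instance ud_code (n : ℕ) (k : ℕ → Bool) (i : ℕ) : UD fun _ S v => Code S n k (v i) := by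
  induction n generalizing i with
  | zero => unfold Code; infer_instance
  | succ n ih => unfold Code; infer_instance

/-- `U` is a subset of `Z` that is almost equal to a member of a value of `O` at `x`. -/
def Near (S : Str M) (Z O x U : M) : Prop :=
  (∀ w, S.mem w U → S.mem w Z) ∧ ∃ a, S.App O x a ∧ ∃ Y, S.mem Y a ∧
    S.FinC (fun z => S.mem z U ∧ ¬ S.mem z Y) ∧ S.FinC (fun z => S.mem z Y ∧ ¬ S.mem z U)

instance ud_near (i j k l : ℕ) : UD fun _ S v => Near S (v i) (v j) (v k) (v l) := by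
  unfold Near; infer_instance

theorem bit_injective : Function.Injective bit := by
  intro b c h
  cases b <;> cases c <;> simp_all [bit]

theorem isSetOf_congr {S : Str M} {d : M} {P Q : M → Prop} (h : S.IsSetOf d P)
    (e : ∀ z, P z ↔ Q z) : S.IsSetOf d Q := ⟨h.1, fun z => (h.2 z).trans (e z)⟩

namespace Std
variable {S : Str M} {num : ℕ → M}

theorem ext (h : Std S num) {x y : M} (e : ∀ z, S.mem z x ↔ S.mem z y) : x = y :=
  h.zf.ext x y (h.set x) (h.set y) e

theorem isSetOf_iff (h : Std S num) {d : M} {P : M → Prop} :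
    S.IsSetOf d P ↔ ∀ z, S.mem z d ↔ P z := ⟨fun e => e.2, fun e => ⟨h.set d, e⟩⟩

theorem uniq (h : Std S num) {d d' : M} {P : M → Prop} (h1 : S.IsSetOf d P)
    (h2 : S.IsSetOf d' P) : d = d' := h.ext fun z => (h1.2 z).trans (h2.2 z).symm

theorem isSetOf_iff_eq (h : Std S num) {d d' : M} {P : M → Prop} (h1 : S.IsSetOf d P) :
    S.IsSetOf d' P ↔ d' = d := ⟨fun h' => h.uniq h' h1, fun e => e ▸ h1⟩

/-- Unordered pairs. -/
noncomputable def up (h : Std S num) (x y : M) : M := (h.zf.pairing x y).choose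

theorem isSetOf_up (h : Std S num) (x y : M) : S.IsSetOf (h.up x y) fun z => z = x ∨ z = y :=
  (h.zf.pairing x y).choose_spec

theorem mem_up (h : Std S num) (x y z : M) : S.mem z (h.up x y) ↔ z = x ∨ z = y :=
  (h.isSetOf_up x y).2 z

/-- Ordered pairs. -/
noncomputable def op (h : Std S num) (x y : M) : M := h.up (h.up x x) (h.up x y)

theorem isPair_iff (h : Std S num) (p x y : M) : S.IsPair p x y ↔ p = h.op x y := by
  apply h.isSetOf_iff_eq
  refine isSetOf_congr (h.isSetOf_up (h.up x x) (h.up x y)) fun u => or_congr ?_ ?_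
  · exact (h.isSetOf_iff_eq (isSetOf_congr (h.isSetOf_up x x) (by simp))).symm
  · exact (h.isSetOf_iff_eq (h.isSetOf_up x y)).symm

theorem up_eq_iff (h : Std S num) {x y x' y' : M} :
    h.up x y = h.up x' y' ↔ ∀ z, z = x ∨ z = y ↔ z = x' ∨ z = y' := by
  simp only [← h.mem_up]
  exact ⟨fun e z => by rw [e], h.ext⟩

theorem op_inj (g : Std S num) {x y x' y' : M} (h : g.op x y = g.op x' y') : x = x' ∧ y = y' := by
  rw [op, op, g.up_eq_iff] at h
  have h1 := (h (g.up x x)).mp (Or.inl rfl)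
  have hx : x = x' := by
    rcases h1 with h1 | h1
    · simpa using ((g.up_eq_iff.mp h1) x).mp (Or.inl rfl)
    · simpa [eq_comm] using ((g.up_eq_iff.mp h1) x').mpr (Or.inl rfl)
  subst hx
  refine ⟨rfl, ?_⟩
  have h2 := (h (g.up x y)).mp (Or.inr rfl)
  have h3 := (h (g.up x y')).mpr (Or.inr rfl)
  rcases h2 with h2 | h2
  · have hy : y = x := by simpa using ((g.up_eq_iff.mp h2) y).mp (Or.inr rfl)
    subst hy
    have h4 : g.up y y' = g.up y y := by simpa using h3
    simpa [eq_comm] using ((g.up_eq_iff.mp h4) y').mp (Or.inr rfl)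
  · rcases ((g.up_eq_iff.mp h2) y).mp (Or.inr rfl) with h5 | h5
    · subst h5
      simpa [eq_comm] using ((g.up_eq_iff.mp h2) y').mpr (Or.inr rfl)
    · exact h5

theorem app_iff (h : Std S num) (f x y : M) : S.App f x y ↔ S.mem (h.op x y) f := by
  simp only [Str.App, h.isPair_iff]
  exact ⟨fun ⟨p, h, e⟩ => e ▸ h, fun h => ⟨_, h, rfl⟩⟩

theorem fun_dom (h : Std S num) {f x y : M} {P : M → Prop} (hf : S.IsFun f P)
    (ha : S.App f x y) : P x := by
  obtain ⟨x', y', h1, h2⟩ := hf.2.1 _ ((h.app_iff _ _ _).mp ha)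
  rw [h.isPair_iff] at h2
  rw [(h.op_inj h2).1]; exact h1

theorem fun_unique (h : Std S num) {f x y y' : M} {P : M → Prop} (hf : S.IsFun f P)
    (ha : S.App f x y) (ha' : S.App f x y') : y = y' :=
  (hf.2.2 x (h.fun_dom hf ha)).unique ha ha'

theorem isFun_congr {f : M} {P Q : M → Prop} (hf : S.IsFun f P) (e : ∀ x, P x ↔ Q x) :
    S.IsFun f Q := by
  have : P = Q := funext fun x => propext (e x)
  exact this ▸ hf

theorem not_mem_self (h : Std S num) (x : M) : ¬ S.mem x x := by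
  intro hx
  obtain ⟨y, hy, h2⟩ := h.zf.foundation (h.up x x) x ((h.mem_up _ _ _).2 (Or.inl rfl))
  have e : y = x := by simpa using (h.mem_up _ _ _).1 hy
  subst e
  exact h2 y hx hy

theorem num_injective (h : Std S num) : Function.Injective num := by
  intro m n e
  rcases lt_trichotomy m n with l | l | l
  · have a : S.mem (num m) (num n) := (h.mem_num n _).2 ⟨m, l, rfl⟩
    rw [e] at a
    exact absurd a (h.not_mem_self _)
  · exact l
  · have a : S.mem (num n) (num m) := (h.mem_num m _).2 ⟨n, l, rfl⟩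
    rw [e] at a
    exact absurd a (h.not_mem_self _)

theorem num_mem_num (h : Std S num) {m n : ℕ} : S.mem (num m) (num n) ↔ m < n := by
  rw [h.mem_num]
  exact ⟨fun ⟨j, hj, e⟩ => h.num_injective e ▸ hj, fun l => ⟨m, l, rfl⟩⟩

theorem not_mem_zero (h : Std S num) (z : M) : ¬ S.mem z (num 0) := by simp [h.mem_num]

theorem mem_succ (h : Std S num) (n : ℕ) (z : M) :
    S.mem z (num (n + 1)) ↔ S.mem z (num n) ∨ z = num n := by
  simp only [h.mem_num]
  constructor
  · rintro ⟨m, hm, rfl⟩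
    rcases Nat.lt_succ_iff_lt_or_eq.mp hm with l | rfl
    · exact Or.inl ⟨m, l, rfl⟩
    · exact Or.inr rfl
  · rintro (⟨m, hm, rfl⟩ | rfl)
    · exact ⟨m, by omega, rfl⟩
    · exact ⟨n, by omega, rfl⟩

theorem num_iff (h : Std S num) (n : ℕ) : ∀ x, Num S n x ↔ x = num n := by
  induction n with
  | zero =>
    intro x
    exact ⟨fun e => h.ext fun z => iff_of_false (e z) (h.not_mem_zero z),
      fun e => e ▸ h.not_mem_zero⟩
  | succ n ih =>
    intro x
    constructor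
    · rintro ⟨y, hy, e⟩
      rw [ih] at hy
      subst hy
      exact h.ext fun z => (e z).trans (h.mem_succ n z).symm
    · rintro rfl
      exact ⟨num n, (ih _).2 rfl, h.mem_succ n⟩

theorem exists_union (h : Std S num) (U W : M) :
    ∃ T, S.IsSetOf T fun z => S.mem z U ∨ S.mem z W := by
  obtain ⟨T, hT⟩ := h.zf.union (h.up U W)
  exact ⟨T, isSetOf_congr hT fun z => by simp [h.mem_up]⟩

theorem exists_inter (h : Std S num) (U W : M) :
    ∃ T, S.IsSetOf T fun z => S.mem z U ∧ S.mem z W :=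
  sepU h.zf (fun _ S z v => S.mem z (v 0)) (fun _ => W) U

theorem exists_diff (h : Std S num) (U W : M) :
    ∃ T, S.IsSetOf T fun z => S.mem z U ∧ ¬ S.mem z W :=
  sepU h.zf (fun _ S z v => ¬ S.mem z (v 0)) (fun _ => W) U

theorem exists_power (h : Std S num) (X : M) :
    ∃ T, S.IsSetOf T fun U => ∀ w, S.mem w U → S.mem w X := by
  obtain ⟨T, hT⟩ := h.zf.power X
  exact ⟨T, isSetOf_congr hT fun U => and_iff_right (h.set U)⟩

theorem exists_omega (h : Std S num) : ∃ w, S.IsSetOf w fun z => ∃ n, z = num n := by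
  obtain ⟨I, hI⟩ := h.zf.infinity
  obtain ⟨w, hw⟩ := sepU h.zf (fun _ S z _ => S.IsNat z) (fun _ => I) I
  exact ⟨w, isSetOf_congr hw fun z => (and_iff_right_of_imp fun hz => hz I hI).trans (h.isNat z)⟩

theorem exists_finite_set (h : Std S num) {P : M → Prop} (hP : {z | P z}.Finite) :
    ∃ d, S.IsSetOf d P := by
  have key : ∀ T : Set M, T.Finite → ∃ d, S.IsSetOf d (· ∈ T) := by
    intro T hT
    induction T, hT using Set.Finite.induction_on with
    | empty => exact ⟨num 0, h.set _, fun z => iff_of_false (h.not_mem_zero z) (by simp)⟩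
    | @insert a T _ _ ih =>
      obtain ⟨d, hd⟩ := ih
      obtain ⟨T', hT'⟩ := h.exists_union (h.up a a) d
      exact ⟨T', isSetOf_congr hT' fun z => by simp [h.mem_up, hd.2]⟩
  exact key _ hP

/-- A set of pairs with distinct first components is a function. -/
theorem graph_of_set (h : Std S num) {ι : Sort*} (a b : ι → M) (ha : Function.Injective a) {f : M}
    (hf : S.IsSetOf f fun p => ∃ i, p = h.op (a i) (b i)) :
    S.IsFun f (fun x => ∃ i, x = a i) ∧ ∀ x y, S.App f x y ↔ ∃ i, x = a i ∧ y = b i := by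
  have happ : ∀ x y, S.App f x y ↔ ∃ i, x = a i ∧ y = b i := by
    intro x y
    rw [h.app_iff, hf.2]
    exact exists_congr fun i => ⟨h.op_inj, fun ⟨h1, h2⟩ => by rw [h1, h2]⟩
  refine ⟨⟨hf.1, fun p hp => ?_, ?_⟩, happ⟩
  · obtain ⟨i, rfl⟩ := (hf.2 p).mp hp
    exact ⟨a i, b i, ⟨i, rfl⟩, (h.isPair_iff _ _ _).mpr rfl⟩
  · rintro _ ⟨i, rfl⟩
    refine ⟨b i, (happ _ _).mpr ⟨i, rfl, rfl⟩, fun y hy => ?_⟩
    obtain ⟨j, h1, h2⟩ := (happ _ _).mp hy
    rw [h2, ha h1]

theorem exists_graph (h : Std S num) {ι : Type*} [Finite ι] (a b : ι → M)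
    (ha : Function.Injective a) :
    ∃ f, S.IsSetOf f (fun p => ∃ i, p = h.op (a i) (b i)) ∧ S.IsFun f (fun x => ∃ i, x = a i) ∧
      ∀ x y, S.App f x y ↔ ∃ i, x = a i ∧ y = b i := by
  obtain ⟨f, hf⟩ := h.exists_finite_set (P := fun p => ∃ i, p = h.op (a i) (b i))
    ((Set.finite_range fun i => h.op (a i) (b i)).subset fun p ⟨i, e⟩ => ⟨i, e.symm⟩)
  exact ⟨f, hf, h.graph_of_set a b ha hf⟩

/-- The graph of a definable function on a set. -/
theorem exists_graph_def (h : Std S num) (P : ∀ M : Type 1, Str M → M → M → (ℕ → M) → Prop)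
    [u : UD fun M S v => P M S (v 0) (v 1) fun i => v (i + 2)] (v : ℕ → M) (a : M)
    (hf : ∀ x, S.mem x a → ∃! y, P M S x y v) :
    ∃ f, S.IsFun f (fun x => S.mem x a) ∧ ∀ x y, S.App f x y ↔ S.mem x a ∧ P M S x y v := by
  have u2 : UD fun M S v => P M S (v (0 + 1)) (v 0) fun i => v (i + 2 + 1) :=
    u.ren fun i => Nat.casesOn i 1 fun j => Nat.casesOn j 0 fun l => l + 3
  obtain ⟨f, hf'⟩ := replU h.zf (fun M S x p v => ∃ y, P M S x y v ∧ S.IsPair p x y) v a
    fun x hx => by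
      obtain ⟨y, hy, hu⟩ := hf x hx
      refine ⟨h.op x y, ⟨y, hy, (h.isPair_iff _ _ _).2 rfl⟩, ?_⟩
      rintro p ⟨y', hy', e⟩
      rw [(h.isPair_iff _ _ _).1 e, hu y' hy']
  have happ : ∀ x y, S.App f x y ↔ S.mem x a ∧ P M S x y v := by
    intro x y
    rw [h.app_iff, hf'.2]
    constructor
    · rintro ⟨x', hx', y', hy', e⟩
      obtain ⟨rfl, rfl⟩ := h.op_inj ((h.isPair_iff _ _ _).1 e)
      exact ⟨hx', hy'⟩
    · exact fun ⟨h1, h2⟩ => ⟨x, h1, y, h2, (h.isPair_iff _ _ _).2 rfl⟩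
  refine ⟨f, ⟨hf'.1, fun p hp => ?_, fun x hx => ?_⟩, happ⟩
  · obtain ⟨x, hx, y, -, e⟩ := (hf'.2 p).1 hp
    exact ⟨x, y, hx, e⟩
  · simp only [happ, hx, true_and]
    exact hf x hx

theorem isFin_iff (h : Std S num) (x : M) : S.IsFin x ↔ (ex S x).Finite := by
  constructor
  · rintro ⟨n, f, hn, hf, -, h2⟩
    obtain ⟨k, rfl⟩ := (h.isNat n).mp hn
    have : ∀ a : ex S x, ∃ j : Fin k, S.App f (num j) a := by
      intro a
      obtain ⟨i, hi, -⟩ := h2 a.1 a.2
      have hd := h.fun_dom hf hi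
      obtain ⟨j, hj, rfl⟩ := (h.mem_num k i).mp hd
      exact ⟨⟨j, hj⟩, hi⟩
    choose c hc using this
    exact Finite.of_injective c fun a b hab =>
      Subtype.ext (h.fun_unique hf (hc a) (hab ▸ hc b))
  · intro hx
    have : Finite (ex S x) := hx
    obtain ⟨k, ⟨e⟩⟩ := Finite.exists_equiv_fin (ex S x)
    obtain ⟨f, -, hf, happ⟩ := h.exists_graph (fun i : Fin k => num i) (fun i => (e.symm i).1)
      (fun i j hij => Fin.ext (h.num_injective hij))
    refine ⟨num k, f, (h.isNat _).mpr ⟨k, rfl⟩, isFun_congr hf fun i => ?_, ?_, ?_⟩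
    · rw [h.mem_num]
      exact ⟨fun ⟨j, e⟩ => ⟨j, j.2, e⟩, fun ⟨j, hj, e⟩ => ⟨⟨j, hj⟩, e⟩⟩
    · intro i a ha
      obtain ⟨j, -, rfl⟩ := (happ _ _).mp ha
      exact (e.symm j).2
    · intro a ha
      refine ⟨num (e ⟨a, ha⟩), (happ _ _).mpr ⟨e ⟨a, ha⟩, rfl, by simp⟩, fun i hi => ?_⟩
      obtain ⟨j, rfl, h2⟩ := (happ _ _).mp hi
      have : (⟨a, ha⟩ : ex S x) = e.symm j := Subtype.ext h2
      rw [this]; simp

theorem finC_iff (h : Std S num) (P : M → Prop) : S.FinC P ↔ {z | P z}.Finite := by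
  constructor
  · rintro ⟨d, hd, hf⟩
    rw [h.isFin_iff] at hf
    exact hf.subset fun z hz => (hd.2 z).2 hz
  · intro hf
    obtain ⟨d, hd⟩ := h.exists_finite_set hf
    exact ⟨d, hd, (h.isFin_iff d).mpr (hf.subset fun z hz => (hd.2 z).1 hz)⟩

theorem code_iff (h : Std S num) (n : ℕ) (k : ℕ → Bool) : ∀ s, Code S n k s ↔
    ∀ p, S.mem p s ↔ ∃ i < n, p = h.op (num i) (num (bit (k i))) := by
  induction n with
  | zero => intro s; simp [Code]
  | succ n ih =>
    intro s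
    have e : ∀ p, (∃ i < n + 1, p = h.op (num i) (num (bit (k i)))) ↔
        (∃ i < n, p = h.op (num i) (num (bit (k i)))) ∨ p = h.op (num n) (num (bit (k n))) := by
      intro p
      constructor
      · rintro ⟨i, hi, rfl⟩
        rcases Nat.lt_succ_iff_lt_or_eq.mp hi with l | rfl
        · exact Or.inl ⟨i, l, rfl⟩
        · exact Or.inr rfl
      · rintro (⟨i, hi, rfl⟩ | rfl)
        · exact ⟨i, by omega, rfl⟩
        · exact ⟨n, by omega, rfl⟩
    constructor
    · rintro ⟨t, ht, a, ha, b, hb, hs⟩ p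
      rw [h.num_iff] at ha hb
      subst ha hb
      rw [hs, e, (ih t).1 ht, h.isPair_iff]
    · intro hs
      obtain ⟨t, ht⟩ := h.exists_finite_set
        (P := fun p => ∃ i < n, p = h.op (num i) (num (bit (k i))))
        (((Set.finite_lt_nat n).image fun i => h.op (num i) (num (bit (k i)))).subset
          fun p ⟨i, hi, e⟩ => ⟨i, hi, e.symm⟩)
      refine ⟨t, (ih t).2 ht.2, _, (h.num_iff _ _).2 rfl, _, (h.num_iff _ _).2 rfl, fun p => ?_⟩
      rw [hs, e, ht.2, h.isPair_iff]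

theorem code_unique (h : Std S num) {n : ℕ} {k : ℕ → Bool} {s t : M} (hs : Code S n k s)
    (ht : Code S n k t) : s = t :=
  h.ext fun p => ((h.code_iff n k s).1 hs p).trans ((h.code_iff n k t).1 ht p).symm

theorem exists_code (h : Std S num) (n : ℕ) (k : ℕ → Bool) :
    ∃ s, S.IsFun s (fun i => S.mem i (num n)) ∧
      S.IsSetOf s (fun p => ∃ i < n, p = h.op (num i) (num (bit (k i)))) ∧ Code S n k s := by
  obtain ⟨f, h1, hf, -⟩ := h.exists_graph (fun i : Fin n => num i) (fun i => num (bit (k i)))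
    (fun i j hij => Fin.ext (h.num_injective hij))
  have h2 : S.IsSetOf f (fun p => ∃ i < n, p = h.op (num i) (num (bit (k i)))) :=
    isSetOf_congr h1 fun p => ⟨fun ⟨j, e⟩ => ⟨j, j.2, e⟩, fun ⟨j, hj, e⟩ => ⟨⟨j, hj⟩, e⟩⟩
  refine ⟨f, isFun_congr hf fun i => ?_, h2, (h.code_iff n k f).2 h2.2⟩
  rw [h.mem_num]
  exact ⟨fun ⟨j, e⟩ => ⟨j, j.2, e⟩, fun ⟨j, hj, e⟩ => ⟨⟨j, hj⟩, e⟩⟩

/-- A criterion for being strongly filterbase infinite. -/
theorem sfi_of_family (h : Std S num) (Z O : M) (A Y : ℕ → M)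
    (hO : ∀ p, S.mem p O ↔ ∃ i, S.IsPair p (num i) (A i)) (hY : ∀ i, S.mem (Y i) (A i))
    (hsub : ∀ i, ex S (Y i) ⊆ ex S Z) (hinf : ∀ i, (ex S (Y i)).Infinite)
    (hdisj : ∀ i j, i ≠ j → (ex S (Y i) ∩ ex S (Y j)).Finite)
    (hae : ∀ i U U', S.mem U (A i) → S.mem U' (A i) → (ex S U \ ex S U').Finite) :
    S.SFI Z := by
  let C : ℕ → M → Prop := fun i U =>
    ex S U ⊆ ex S Z ∧ (ex S U \ ex S (Y i)).Finite ∧ (ex S (Y i) \ ex S U).Finite
  have hOa : ∀ i a, S.App O (num i) a ↔ a = A i := by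
    intro i a
    rw [h.app_iff, hO]
    constructor
    · rintro ⟨j, hj⟩
      obtain ⟨e1, e2⟩ := h.op_inj ((h.isPair_iff _ _ _).1 hj)
      rw [e2, h.num_injective e1]
    · rintro rfl
      exact ⟨i, (h.isPair_iff _ _ _).2 rfl⟩
  have hN : ∀ i U, Near S Z O (num i) U ↔ C i U := by
    intro i U
    refine and_congr Iff.rfl ⟨?_, fun hU => ?_⟩
    · rintro ⟨a, ha, Y', hY', h1, h2⟩
      rw [hOa] at ha
      subst ha
      rw [h.finC_iff] at h1 h2
      constructor
      · refine (h1.union (hae i _ _ hY' (hY i))).subset fun z hz => ?_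
        by_cases e : z ∈ ex S Y'
        · exact Or.inr ⟨e, hz.2⟩
        · exact Or.inl ⟨hz.1, e⟩
      · refine (h2.union (hae i _ _ (hY i) hY')).subset fun z hz => ?_
        by_cases e : z ∈ ex S Y'
        · exact Or.inl ⟨e, hz.2⟩
        · exact Or.inr ⟨hz.1, e⟩
    · exact ⟨A i, (hOa _ _).2 rfl, Y i, hY i, (h.finC_iff _).2 hU.1, (h.finC_iff _).2 hU.2⟩
  have hV : ∀ i, ∃ V, S.IsSetOf V (C i) := by
    intro i
    obtain ⟨T, hT⟩ := h.exists_power Z
    obtain ⟨V, hV⟩ := sepU h.zf (fun _ S U v => Near S (v 0) (v 1) (v 2) U)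
      (cons Z (cons O fun _ => num i)) T
    refine ⟨V, isSetOf_congr hV fun U => ?_⟩
    rw [← hN]
    exact and_iff_right_of_imp fun hU => (hT.2 U).2 hU.1
  choose V hV using hV
  have hdC : ∀ i, C i (Y i) := fun i => ⟨hsub i, by simp, by simp⟩
  have hCinf : ∀ i U, C i U → (ex S U).Infinite := by
    intro i U hU hfin
    exact hinf i ((hfin.union hU.2.2).subset fun z hz => by
      by_cases e : z ∈ ex S U
      · exact Or.inl e
      · exact Or.inr ⟨hz, e⟩)
  have hCinter : ∀ i U W T, C i U → C i W →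
      S.IsSetOf T (fun z => S.mem z U ∧ S.mem z W) → C i T := by
    intro i U W T hU hW hT
    have e : ex S T = ex S U ∩ ex S W := Set.ext hT.2
    refine ⟨?_, ?_, ?_⟩ <;> rw [e]
    · exact Set.inter_subset_left.trans hU.1
    · exact hU.2.1.subset fun z hz => ⟨hz.1.1, hz.2⟩
    · rw [Set.sdiff_inter]; exact hU.2.2.union hW.2.2
  obtain ⟨w, hw⟩ := h.exists_omega
  have hP : ∀ i V', S.IsSetOf V' (fun U => Near S Z O (num i) U) ↔ V' = V i := fun i V' =>
    h.isSetOf_iff_eq (isSetOf_congr (hV i) fun U => (hN i U).symm)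
  obtain ⟨f, hf, happ'⟩ := h.exists_graph_def
    (fun _ S x V' v => S.IsSetOf V' fun U => Near S (v 0) (v 1) x U) (cons Z fun _ => O) w
    fun x hx => by
      obtain ⟨i, rfl⟩ := (hw.2 x).1 hx
      exact ⟨V i, (hP i _).2 rfl, fun V' hV' => (hP i _).1 hV'⟩
  have happ : ∀ x y, S.App f x y ↔ ∃ i, x = num i ∧ y = V i := by
    intro x y
    rw [happ', hw.2]
    constructor
    · rintro ⟨⟨i, rfl⟩, hy⟩
      exact ⟨i, rfl, (hP i _).1 hy⟩
    · rintro ⟨i, rfl, rfl⟩
      exact ⟨⟨i, rfl⟩, (hP i _).2 rfl⟩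
  refine ⟨f, isFun_congr hf fun x => (hw.2 x).trans (h.isNat x).symm, ?_, ?_, ?_⟩
  · intro i V' e
    obtain ⟨i, rfl, rfl⟩ := (happ _ _).mp e
    have hm := (hV i).2
    refine ⟨(hV i).1, fun U hU => ⟨h.set U, fun z hz => ((hm U).mp hU).1 hz⟩,
      ⟨Y i, (hm _).mpr (hdC i)⟩, ?_, ?_, ?_, ?_, ?_⟩
    · intro U W hU hW
      obtain ⟨T, hT⟩ := h.exists_inter U W
      have hTC := hCinter i U W T ((hm U).mp hU) ((hm W).mp hW) hT
      exact ⟨T, (hm T).mpr hTC, (hCinf i T hTC).nonempty, fun z hz => (hT.2 z).mp hz⟩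
    · intro U W T hU hW hT
      rw [hm] at hU hW ⊢
      have e : ex S T = ex S U ∪ ex S W := Set.ext hT.2
      refine ⟨?_, ?_, ?_⟩ <;> rw [e]
      · exact Set.union_subset hU.1 hW.1
      · rw [Set.union_sdiff_distrib]; exact hU.2.1.union hW.2.1
      · exact hU.2.2.subset fun z hz => ⟨hz.1, fun c => hz.2 (Or.inl c)⟩
    · intro U W T hU hW hT
      exact (hm T).mpr (hCinter i U W T ((hm U).mp hU) ((hm W).mp hW) hT)
    · intro U hU
      rw [h.isFin_iff]
      exact hCinf i U ((hm U).mp hU)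
    · intro U W hU hW
      rw [hm] at hU hW
      rw [h.finC_iff]
      refine (hU.2.1.union hW.2.2).subset fun z hz => ?_
      by_cases c : z ∈ ex S (Y i)
      · exact Or.inr ⟨c, hz.2⟩
      · exact Or.inl ⟨hz.1, c⟩
  · intro i j V₁ V₂ hij h1 h2
    obtain ⟨i, rfl, rfl⟩ := (happ _ _).mp h1
    obtain ⟨j, rfl, rfl⟩ := (happ _ _).mp h2
    refine ⟨Y i, Y j, ((hV i).2 _).mpr (hdC i), ((hV j).2 _).mpr (hdC j), ?_⟩
    rw [h.finC_iff]
    exact hdisj i j (by rintro rfl; exact hij rfl)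
  · intro n c hn hc hh
    obtain ⟨k, rfl⟩ := (h.isNat n).mp hn
    rw [h.finC_iff]
    intro hfin
    have hU : ∀ j : Fin k, ∃ U, S.App c (num j) U := fun j =>
      (hc.2.2 _ ((h.mem_num k _).mpr ⟨j, j.2, rfl⟩)).exists
    choose U hU using hU
    have hUC : ∀ j : Fin k, C j (U j) := fun j =>
      ((hV j).2 _).mp (hh _ _ _ (hU j) ((happ _ _).mpr ⟨j, rfl, rfl⟩))
    apply hinf k
    refine (hfin.union (Set.finite_iUnion fun j : Fin k =>
      (hUC j).2.1.union (hdisj j k j.2.ne))).subset fun z hz => ?_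
    by_cases h1 : ∃ j, z ∈ ex S (U j)
    · obtain ⟨j, hj⟩ := h1
      refine Or.inr (Set.mem_iUnion.mpr ⟨j, ?_⟩)
      by_cases h2 : z ∈ ex S (Y j)
      · exact Or.inr ⟨h2, hz⟩
      · exact Or.inl ⟨hj, h2⟩
    · refine Or.inl ⟨hsub k hz, fun i U' hU' hz' => h1 ?_⟩
      have hd := h.fun_dom hc hU'
      obtain ⟨j, hj, rfl⟩ := (h.mem_num k i).mp hd
      exact ⟨⟨j, hj⟩, h.fun_unique hc hU' (hU ⟨j, hj⟩) ▸ hz'⟩

theorem tree_of_dfi (h : Std S num) {X : M} (hX : S.DFI X) : Tree S X := by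
  obtain ⟨zero, one, f, h0, h1, hf, hgood, h3, -⟩ := hX
  have e0 : zero = num 0 := h.ext fun z => (h0.2 z).trans (iff_of_false id (h.not_mem_zero z))
  subst e0
  have e1 : one = num 1 := h.ext fun z => (h1.2 z).trans (by
    rw [h.mem_succ 0]; simp [h.not_mem_zero])
  subst e1
  choose s hs1 hs2 hs3 using fun n k => h.exists_code n k
  have hbin : ∀ n k, S.Bin (num 0) (num 1) (num (n + 1)) (s (n + 1) k) := by
    intro n k
    refine ⟨(h.isNat _).mpr ⟨_, rfl⟩, fun e => by simpa using h.num_injective e, hs1 _ _, ?_⟩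
    intro i b hb
    obtain ⟨j, -, e⟩ := ((hs2 _ _).2 _).mp ((h.app_iff _ _ _).mp hb)
    rw [(h.op_inj e).2, bit]
    cases k j <;> simp
  have hV : ∀ n k, ∃ V, S.App f (s (n + 1) k) V := fun n k =>
    (hf.2.2 _ ⟨_, hbin n k⟩).exists
  choose V hV using hV
  have hG := fun n k => hgood _ _ (hV n k)
  choose W hW using fun n k => (hG n k).2.2.1
  have hdiff : ∀ n k U U', S.mem U (V n k) → S.mem U' (V n k) → (ex S U \ ex S U').Finite :=
    fun n k U U' hU hU' => (h.finC_iff _).mp ((hG n k).2.2.2.2.2.2.2 U U' hU hU')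
  have hseq : ∀ n k k', (∀ i < n, k i = k' i) → s n k = s n k' := by
    intro n k k' e
    refine h.uniq (hs2 n k) (isSetOf_congr (hs2 n k') fun p => ?_)
    exact exists_congr fun i => and_congr_right fun hi => by rw [e i hi]
  have hVeq : ∀ n k k', (∀ i ≤ n, k i = k' i) → V n k = V n k' := by
    intro n k k' e
    have := hV n k
    rw [hseq (n + 1) k k' fun i hi => e i (by omega)] at this
    exact h.fun_unique hf this (hV n k')
  have hne : ∀ n k k', (∃ i ≤ n, k i ≠ k' i) → s (n + 1) k ≠ s (n + 1) k' := by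
    rintro n k k' ⟨i, hi, hne⟩ e
    have h1 := ((hs2 (n + 1) k).2 _).mpr ⟨i, by omega, rfl⟩
    rw [e] at h1
    obtain ⟨j, -, e'⟩ := ((hs2 (n + 1) k').2 _).mp h1
    have h2 := h.num_injective (h.op_inj e').1
    subst h2
    exact hne (bit_injective (h.num_injective (h.op_inj e').2))
  have hext : ∀ n k b, S.IsSetOf (s (n + 1) (Function.update k n b))
      (fun p => S.mem p (s n k) ∨ S.IsPair p (num n) (num (bit b))) := by
    intro n k b
    refine isSetOf_congr (hs2 _ _) fun p => ?_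
    rw [(hs2 n k).2, h.isPair_iff]
    constructor
    · rintro ⟨i, hi, rfl⟩
      rcases Nat.lt_succ_iff_lt_or_eq.mp hi with l | rfl
      · exact Or.inl ⟨i, l, by rw [Function.update_of_ne l.ne]⟩
      · exact Or.inr (by simp)
    · rintro (⟨i, hi, rfl⟩ | rfl)
      · exact ⟨i, by omega, by rw [Function.update_of_ne hi.ne]⟩
      · exact ⟨n, by omega, by simp⟩
  have key : ∀ n k k', (∃ i ≤ n, k i ≠ k' i) → (ex S (W (n + 1) k) \ ex S (W n k)).Finite ∧
      (ex S (W (n + 1) k) ∩ ex S (W n k')).Finite := by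
    intro n k k' e
    obtain ⟨U, U', hU, hU', h4, h5⟩ := h3 _ _ _ _ _ _ _ _ _ _ _ (hbin n k) (hbin n k')
      (hne n k k' e) (hV n k) (hV n k') (hW n k) (hW n k') (hext (n + 1) k false)
      (hext (n + 1) k true) (hV _ _) (hV _ _)
    rw [h.finC_iff] at h4 h5
    have h6 : (ex S (W (n + 1) k) \ (ex S U ∪ ex S U')).Finite := by
      cases hk : k (n + 1)
      · have e : Function.update k (n + 1) false = k := by rw [← hk]; simp
        rw [e] at hU
        exact (hdiff _ _ _ _ (hW _ _) hU).subset fun z hz => ⟨hz.1, fun c => hz.2 (Or.inl c)⟩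
      · have e : Function.update k (n + 1) true = k := by rw [← hk]; simp
        rw [e] at hU'
        exact (hdiff _ _ _ _ (hW _ _) hU').subset fun z hz => ⟨hz.1, fun c => hz.2 (Or.inr c)⟩
    constructor
    · refine (h6.union h4).subset fun z hz => ?_
      by_cases h7 : z ∈ ex S U ∪ ex S U'
      · exact Or.inr ⟨h7, hz.2⟩
      · exact Or.inl ⟨hz.1, h7⟩
    · refine (h6.union h5).subset fun z hz => ?_
      by_cases h7 : z ∈ ex S U ∪ ex S U'
      · exact Or.inr ⟨h7, hz.2⟩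
      · exact Or.inl ⟨hz.1, h7⟩
  choose φ hφ using fun (n : ℕ) (k : ℕ → Bool) => UD.fm fun _ S v =>
    ∃ t, Code S (n + 1) k t ∧ ∃ V', S.App (v 1) t V' ∧ S.mem (v 0) V'
  have hsat : ∀ n k U, S.Sat (φ n k) (cons U fun _ => f) ↔ S.mem U (V n k) := by
    intro n k U
    rw [hφ]
    constructor
    · rintro ⟨t, ht, V', h4, h5⟩
      rw [h.code_unique ht (hs3 _ _)] at h4
      exact h.fun_unique hf h4 (hV n k) ▸ h5
    · exact fun hU => ⟨_, hs3 _ _, _, hV n k, hU⟩
  refine ⟨fun _ => f, φ, W, (Set.finite_singleton f).subset (by rintro _ ⟨_, rfl⟩; rfl),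
    fun n k => ?_, fun n k => (hsat _ _ _).2 (hW n k),
    fun n k U hU => hdiff n k _ _ ((hsat _ _ _).1 hU) (hW n k), fun n k k' e => ?_, fun n k => ?_,
    fun n k k' e => (key n k k' e).2⟩
  · refine ⟨((hG n k).2.1 _ (hW n k)).2, ?_⟩
    have := (hG n k).2.2.2.2.2.2.1 _ (hW n k)
    rwa [h.isFin_iff] at this
  · exact hdiff n k _ _ (hW n k) (hVeq n k k' e ▸ hW n k')
  · exact (key n k (fun i => !k i) ⟨0, Nat.zero_le _, by simp⟩).1

end Std

end Pool.Agent.Lib.SymExt
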