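import Pool.Agent.Lib.PermModel.Defs

/-! Predicates given by one formula in all structures. -/

namespace Pool.Agent.Lib.SymExt

open Pool.Agent.Lib.PermModel

/-- Extend an assignment. -/
def cons {M : Type*} (x : M) (v : ℕ → M) : ℕ → M
  | 0 => x
  | n + 1 => v n

@[simp] theorem cons_zero {M : Type*} (x : M) (v : ℕ → M) : cons x v 0 = x := rfl

@[simp] theorem cons_succ {M : Type*} (x : M) (v : ℕ → M) (n : ℕ) : cons x v (n + 1) = v n := rfl

/-- Predicates that one formula defines in all structures. -/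
class UD (P : ∀ M : Type 1, Str M → (ℕ → M) → Prop) : Prop where
  out : ∃ n, (∀ M S (v w : ℕ → M), (∀ i < n, v i = w i) → (P M S v ↔ P M S w)) ∧
    ∀ s : ℕ → ℕ, ∃ φ : Fm, ∀ M (S : Str M) (w : ℕ → M), S.Sat φ w ↔ P M S fun i => w (s i)

theorem UD.congr {P Q : ∀ M : Type 1, Str M → (ℕ → M) → Prop} (h : UD P)
    (e : ∀ M S v, P M S v ↔ Q M S v) : UD Q := by
  have : P = Q := funext fun M => funext fun S => funext fun v => propext (e M S v)
  exact this ▸ h

theorem UD.fm (P : ∀ M : Type 1, Str M → (ℕ → M) → Prop) [h : UD P] :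
    ∃ φ : Fm, ∀ M (S : Str M) (w : ℕ → M), S.Sat φ w ↔ P M S w := h.out.choose_spec.2 id

theorem UD.ren {P : ∀ M : Type 1, Str M → (ℕ → M) → Prop} (h : UD P) (t : ℕ → ℕ) :
    UD fun M S v => P M S fun i => v (t i) := by
  obtain ⟨n, h1, h2⟩ := h.out
  refine ⟨(Finset.range n).sup t + 1, fun M S v w e => h1 M S _ _ fun i hi => e _ ?_,
    fun s => h2 fun i => s (t i)⟩
  exact Nat.lt_succ_of_le (Finset.le_sup (f := t) (Finset.mem_range.2 hi))

instance ud_mem (i j : ℕ) : UD fun _ S v => S.mem (v i) (v j) :=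
  ⟨i + j + 1, fun _ _ v w h => by simp only [h i (by omega), h j (by omega)],
    fun s => ⟨.mem (s i) (s j), fun _ _ _ => Iff.rfl⟩⟩

instance ud_eq (i j : ℕ) : UD fun _ _ v => v i = v j :=
  ⟨i + j + 1, fun _ _ v w h => by simp only [h i (by omega), h j (by omega)],
    fun s => ⟨.eq (s i) (s j), fun _ _ _ => Iff.rfl⟩⟩

instance ud_atm (i : ℕ) : UD fun _ S v => S.atm (v i) :=
  ⟨i + 1, fun _ _ v w h => by simp only [h i (by omega)],
    fun s => ⟨.atm (s i), fun _ _ _ => Iff.rfl⟩⟩

section
variable (P Q : ∀ M : Type 1, Str M → (ℕ → M) → Prop) [h : UD P] [h' : UD Q]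

instance ud_not : UD fun M S v => ¬ P M S v := by
  obtain ⟨n, h1, h2⟩ := h.out
  refine ⟨n, fun M S v w e => not_congr (h1 M S v w e), fun s => ?_⟩
  obtain ⟨φ, hφ⟩ := h2 s
  exact ⟨.neg φ, fun M S w => not_congr (hφ M S w)⟩

instance ud_and : UD fun M S v => P M S v ∧ Q M S v := by
  obtain ⟨n, h1, h2⟩ := h.out
  obtain ⟨n', h1', h2'⟩ := h'.out
  refine ⟨n + n', fun M S v w e => and_congr (h1 M S v w fun i hi => e i (by omega))
    (h1' M S v w fun i hi => e i (by omega)), fun s => ?_⟩
  obtain ⟨φ, hφ⟩ := h2 s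
  obtain ⟨ψ, hψ⟩ := h2' s
  exact ⟨.conj φ ψ, fun M S w => and_congr (hφ M S w) (hψ M S w)⟩

instance ud_or : UD fun M S v => P M S v ∨ Q M S v :=
  (inferInstance : UD fun M S v => ¬ (¬ P M S v ∧ ¬ Q M S v)).congr fun _ _ _ => by tauto

instance ud_imp : UD fun M S v => P M S v → Q M S v :=
  (inferInstance : UD fun M S v => ¬ (P M S v ∧ ¬ Q M S v)).congr fun _ _ _ => by tauto

instance ud_iff : UD fun M S v => P M S v ↔ Q M S v :=
  (inferInstance : UD fun M S v => (P M S v → Q M S v) ∧ (Q M S v → P M S v)).congr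
    fun _ _ _ => by tauto

end

instance ud_true : UD fun _ _ _ => True :=
  (ud_eq 0 0).congr fun _ _ _ => by simp

instance ud_false : UD fun _ _ _ => False :=
  (ud_not fun _ _ _ => True).congr fun _ _ _ => by simp

instance ud_ne (i j : ℕ) : UD fun _ _ v => v i ≠ v j := ud_not _

section
variable (P : ∀ M : Type 1, Str M → M → (ℕ → M) → Prop)
  [h : UD fun M S v => P M S (v 0) fun i => v (i + 1)]

instance ud_all : UD fun M S v => ∀ x, P M S x v := by
  obtain ⟨n, h1, h2⟩ := h.out
  refine ⟨n, fun M S v w e => forall_congr' fun x => h1 M S (cons x v) (cons x w)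
    fun i hi => ?_, fun s => ?_⟩
  · cases i with
    | zero => rfl
    | succ i => exact e i (by omega)
  · obtain ⟨m, hm⟩ : ∃ m, ∀ i < n, s i < m :=
      ⟨(Finset.range n).sup s + 1, fun i hi =>
        Nat.lt_succ_of_le (Finset.le_sup (f := s) (Finset.mem_range.2 hi))⟩
    obtain ⟨φ, hφ⟩ := h2 fun i => Nat.casesOn i m s
    refine ⟨.all m φ, fun M S w => forall_congr' fun x => (hφ M S _).trans
      (h1 M S (fun i => Function.update w m x (Nat.casesOn i m s)) (cons x fun i => w (s i))
        fun i hi => ?_)⟩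
    cases i with
    | zero => exact Function.update_self ..
    | succ i => exact Function.update_of_ne (hm i (by omega)).ne ..

instance ud_ex : UD fun M S v => ∃ x, P M S x v :=
  (inferInstance : UD fun M S v => ¬ ∀ x, ¬ P M S x v).congr fun _ _ _ => by simp

instance ud_exu : UD fun M S v => ∃! x, P M S x v := by
  have := h.ren fun i => Nat.casesOn i 0 fun j => j + 2
  have h2 : UD fun M S v => P M S (v 0) fun i => v (i + 1 + 1) := this
  unfold ExistsUnique
  infer_instance

instance ud_isSetOf (i : ℕ) : UD fun M S v => S.IsSetOf (v i) fun z => P M S z v := by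
  unfold Str.IsSetOf
  infer_instance

end

theorem ud_sat (φ : Fm) : UD fun _ S v => S.Sat φ v := by
  induction φ with
  | mem i j => exact ud_mem i j
  | eq i j => exact ud_eq i j
  | atm i => exact ud_atm i
  | neg φ ih => exact ud_not _
  | conj φ ψ ih ih' => exact ud_and _ _
  | all i φ ih =>
    have h : UD fun M S v => S.Sat φ (Function.update (fun n => v (n + 1)) i (v 0)) :=
      (ih.ren fun n => if n = i then 0 else n + 1).congr fun M S v => by
        apply Iff.of_eq
        congr 1
        funext n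
        by_cases e : n = i <;> simp [e]
    exact ud_all fun M S x v => S.Sat φ (Function.update v i x)

instance ud_ind (i : ℕ) : UD fun _ S v => S.Ind (v i) := by
  unfold Str.Ind; infer_instance

instance ud_isNat (i : ℕ) : UD fun _ S v => S.IsNat (v i) := by
  unfold Str.IsNat; infer_instance

instance ud_isPair (i j k : ℕ) : UD fun _ S v => S.IsPair (v i) (v j) (v k) := by
  unfold Str.IsPair; infer_instance

instance ud_app (i j k : ℕ) : UD fun _ S v => S.App (v i) (v j) (v k) := by
  unfold Str.App; infer_instance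

instance ud_isFun (P : ∀ M : Type 1, Str M → M → (ℕ → M) → Prop)
    [h : UD fun M S v => P M S (v 0) fun i => v (i + 1)] (i : ℕ) :
    UD fun M S v => S.IsFun (v i) fun z => P M S z v := by
  have h2 : UD fun M S v => P M S (v 1) fun i => v (i + 1 + 1 + 1) :=
    h.ren fun i => Nat.casesOn i 1 fun j => j + 3
  unfold Str.IsFun
  infer_instance

instance ud_isFin (i : ℕ) : UD fun _ S v => S.IsFin (v i) := by
  unfold Str.IsFin; infer_instance

instance ud_finC (P : ∀ M : Type 1, Str M → M → (ℕ → M) → Prop)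
    [h : UD fun M S v => P M S (v 0) fun i => v (i + 1)] :
    UD fun M S v => S.FinC fun z => P M S z v := by
  have h2 : UD fun M S v => P M S (v 0) fun i => v (i + 1 + 1) :=
    h.ren fun i => Nat.casesOn i 0 fun j => j + 2
  unfold Str.FinC
  infer_instance

instance ud_good (i j : ℕ) : UD fun _ S v => S.Good (v i) (v j) := by
  unfold Str.Good; infer_instance

instance ud_sfi (i : ℕ) : UD fun _ S v => S.SFI (v i) := by
  unfold Str.SFI; infer_instance

variable {M : Type 1} {S : Str M}

/-- Separation for uniformly definable predicates. -/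
theorem sepU (h : S.IsZFA) (P : ∀ M : Type 1, Str M → M → (ℕ → M) → Prop)
    [u : UD fun M S v => P M S (v 0) fun i => v (i + 1)] (v : ℕ → M) (a : M) :
    ∃ d, S.IsSetOf d fun z => S.mem z a ∧ P M S z v := by
  obtain ⟨φ, hφ⟩ := UD.fm fun M S v => P M S (v 0) fun i => v (i + 1)
  obtain ⟨d, hd⟩ := h.separation φ (cons a v) a
  refine ⟨d, hd.1, fun z => (hd.2 z).trans (and_congr_right fun _ => (hφ _ _ _).trans ?_)⟩
  simp

/-- Replacement for uniformly definable predicates. -/
theorem replU (h : S.IsZFA) (P : ∀ M : Type 1, Str M → M → M → (ℕ → M) → Prop)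
    [u : UD fun M S v => P M S (v 0) (v 1) fun i => v (i + 2)] (v : ℕ → M) (a : M)
    (hf : ∀ x, S.mem x a → ∃! y, P M S x y v) :
    ∃ d, S.IsSetOf d fun y => ∃ x, S.mem x a ∧ P M S x y v := by
  obtain ⟨φ, hφ⟩ := UD.fm fun M S v => P M S (v 0) (v 1) fun i => v (i + 2)
  have e : ∀ x y, S.Sat φ (Function.update (Function.update (cons a (cons a v)) 0 x) 1 y) ↔
      P M S x y v := fun x y => (hφ _ _ _).trans (by simp [cons])
  obtain ⟨d, hd⟩ := h.replacement φ (cons a (cons a v)) a fun x hx => by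
    simpa only [e] using hf x hx
  exact ⟨d, hd.1, fun z => (hd.2 z).trans (by simp only [e])⟩

end Pool.Agent.Lib.SymExt
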